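import Pool.Agent.Helper80.LD.SEQld
import Pool.Agent.Helper27.TOW.SEQT

/-!
# RV11: a subsequence with constant group and subnormal subgroup, with the places of the residue fields

`exists_seq_ld` (`Pool/Agent/Helper80/LD/SEQld.lean`) and the pigeonhole of `Pool/Agent/Helper27/TOW/SEQT.lean`.
-/

set_option autoImplicit false

namespace Pool.Agent.SQ.RV

open NumberField Filter Module MvPolynomial
open Pool.Agent.Helper64.Vojta (Pl nv sn above)
open Pool.Agent.Helper52.Vojta (ldeg)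
open Pool.Agent.V2
open Pool.Agent.Chart (fld dg crd hgt)

universe u

private theorem dg_le_27 {k : Type u} [Field k] [NumberField k] {N r : ℕ} (x : Fin N → AlgebraicClosure k) (hx : InTower r x) :
    dg x ≤ r := by
  obtain ⟨F, -, hle, hfd, hr⟩ := hx
  refine le_trans ?_ hr
  exact Submodule.finrank_mono (R := k) (M := AlgebraicClosure k) (s := Subalgebra.toSubmodule (fld x).toSubalgebra)
    (t := Subalgebra.toSubmodule F.toSubalgebra) hle

private theorem exists_above_27 {k : Type u} [Field k] [NumberField k] {N : ℕ} (x : Fin N → AlgebraicClosure k) (v : Pl k) :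
    ∃ w, w ∈ above (fld x) v := by
  have hfd : FiniteDimensional k (fld x) := FiniteDimensional.right ℚ k (fld x)
  have h1 := Pool.Agent.Helper52.Vojta.sum_ldeg (L' := fld x) v
  by_contra hcon
  push Not at hcon
  have h2 : above (fld x) v = ∅ := Finset.eq_empty_of_forall_notMem hcon
  rw [h2, Finset.sum_empty] at h1
  have h3 : 0 < finrank k (fld x) := finrank_pos
  omega

/-- RV11: `exists_seq_ld` together with a subnormal subgroup -/
theorem exists_seq_lt {k : Type u} [Field k] [NumberField k] {N r : ℕ} (x : ℕ → Fin (N + 1) → AlgebraicClosure k)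
    (h1 : ∀ a, ∃ j, x a j = 1) (hr : ∀ a, InTower r (x a)) (S : Finset (Pl k)) :
    ∃ (G : Type) (_ : Group G) (_ : Fintype G) (Hs H : Subgroup G) (φ : ℕ → ℕ),
      StrictMono φ ∧ H.IsSubnormal ∧ H.index ≤ r ∧
      (∀ a, Nat.card Hs * dg (x (φ a)) = Fintype.card G) ∧
      ∃ (y : ∀ a, Fin (N + 1) → gal (x (φ a))) (M : ∀ a, Pl k → gal (x (φ a)) → ℝ)
        (s : ∀ a, G →* (gal (x (φ a)) ≃ₐ[k] gal (x (φ a)))) (p : ∀ a, Pl k → G → Pl (fld (x (φ a)))),
        (∀ a j, (y a j : AlgebraicClosure k) = x (φ a) j) ∧ (∀ a, QSG (s a) (M a)) ∧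
        (∀ a, (Fintype.card G : ℝ) * hgt (x (φ a)) = Hg (s a) (M a) (y a)) ∧
        (∀ a, ∀ h ∈ H, ∀ j, s a h (y a j) = y a j) ∧
        (∀ a v g, p a v g ∈ above (fld (x (φ a))) v) ∧
        (∀ a v, ∀ w ∈ above (fld (x (φ a))) v, Nat.card {g // p a v g = w} = Nat.card Hs * ldeg v w) ∧
        ∀ (a : ℕ) (v : Pl k) (g : G) (d : ℕ) (f : MvPolynomial (Fin (N + 1)) k), aeval (crd (x (φ a))) f ≠ 0 →
          dg (x (φ a)) * lamW d f (x (φ a)) (p a v g) =
            ldeg v (p a v g) * (d * Real.log (mxn (M a v) fun j => s a g (y a j)) - Real.log (M a v (s a g (aeval (y a) f)))) := by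
  classical
  choose w hw using fun (a : ℕ) (v : Pl k) => exists_above_27 (x a) v
  obtain ⟨G, gG, fG, Hs, -, -, φ, hφ, hc, -, y, M, s, p, hy, hQ, hH, -, -, -, hpa, hpc, -, -, hlam⟩ :=
    exists_seq_ld (r := r) x h1 (fun a => dg_le_27 (x a) (hr a)) w hw S
  have key : ∀ a, ∃ H : Subgroup G, H.IsSubnormal ∧ H.index ≤ r ∧ ∀ h ∈ H, ∀ j, s a h (y a j) = y a j := by
    intro a
    obtain ⟨H, h2, h3, h4⟩ := (tow_gal (x (φ a)) (hr (φ a))).1
    have h5 := fing_finDim (x (φ a))
    have h6 := fing_isGalois (x (φ a))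
    refine ⟨H.comap (s a), isSubnormal_comap (s a) h2, ?_, ?_⟩
    · rw [Subgroup.index_comap_of_surjective _ (hQ a).surj]
      exact h3
    · intro h hh j
      refine h4 _ hh _ ?_
      rw [hy a j]
      exact IntermediateField.subset_adjoin _ _ ⟨j, rfl⟩
  choose T hT using key
  obtain ⟨H, hHi⟩ := Finite.exists_infinite_fiber T
  have h2 : ∃ᶠ a in atTop, T a = H := by
    rw [Nat.frequently_atTop_iff_infinite]
    exact Set.infinite_coe_iff.1 hHi
  obtain ⟨ψ, hψ, hψt⟩ := extraction_of_frequently_atTop h2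
  have h3 : H.IsSubnormal ∧ H.index ≤ r := by
    have := hT (ψ 0)
    rw [hψt 0] at this
    exact ⟨this.1, this.2.1⟩
  refine ⟨G, gG, fG, Hs, H, fun a => φ (ψ a), hφ.comp hψ, h3.1, h3.2, fun a => hc (ψ a), fun a => y (ψ a),
    fun a => M (ψ a), fun a => s (ψ a), fun a => p (ψ a), fun a => hy (ψ a), fun a => hQ (ψ a), fun a => hH (ψ a),
    ?_, fun a => hpa (ψ a), fun a => hpc (ψ a), fun a => hlam (ψ a)⟩
  intro a h hh j
  have := (hT (ψ a)).2.2
  rw [hψt a] at this
  exact this h hh j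

end Pool.Agent.SQ.RV
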